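import Mathlib
import Pool.Agent.H23.HM4

namespace Pool.Agent.Results.MP_451483_gt.PathConn

/-- `G` is an `M`-group: every proper unconditionally closed subgroup (closed in every Hausdorff
group topology on `G`) has index at least continuum. -/
def IsMGroup (G : Type) [AddCommGroup G] : Prop :=
  ∀ H : AddSubgroup G, H ≠ ⊤ →
    (∀ τ : TopologicalSpace G, @IsTopologicalAddGroup G τ _ → @T2Space G τ → @IsClosed G τ H) →
    Cardinal.continuum ≤ Cardinal.mk (G ⧸ H)

/-- Locally pathwise connected in the sense of the problem: every point of every open set `U` has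
an open neighbourhood whose closure lies in `U` and is pathwise connected. -/
def LocPathConn (X : Type) [TopologicalSpace X] : Prop :=
  ∀ (x : X) (U : Set X), IsOpen U → x ∈ U →
    ∃ V : Set X, IsOpen V ∧ x ∈ V ∧ closure V ⊆ U ∧ IsPathConnected (closure V)

/-- Every abelian `M`-group of infinite exponent carries a Hausdorff group topology that is
pathwise connected and locally pathwise connected. -/
theorem result (G : Type) [AddCommGroup G] (hM : IsMGroup G)
    (hE : ∀ m : ℕ, m ≠ 0 → ∃ g : G, m • g ≠ 0) :
    ∃ _ : TopologicalSpace G, IsTopologicalAddGroup G ∧ T2Space G ∧ PathConnectedSpace G ∧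
      LocPathConn G :=
  (H23.HM.nice_main (H23.HM.alg hM hE)).final

end Pool.Agent.Results.MP_451483_gt.PathConn
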